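import Pool.Agent.helper69.SN.SpecB
import Pool.Agent.helper90.SN.MMOA
import Pool.Agent.helper53.SC.HS1

/-!
Row mRAD of the project sn (MP_d2d7b9): second order expansion of `C^{1,1}` convex functions and
Hessians of their mollifications.
-/

open scoped Pointwise ContDiff
open MeasureTheory Set Filter Topology

set_option linter.unusedVariables false

namespace Pool.Agent.helper69.SN

open Pool.Agent.helper83.SC

/-- Differentiation of a mollification falls on the function. -/
theorem RAD_fderiv {m : ℕ} (φ : ContDiffBump (0 : E m)) (f : E m → ℝ) (K : ℝ) (x₀ : E m)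
    (hK : 0 ≤ K) (hf : Continuous f)
    (hl : ∀ x y, ‖x‖ ≤ ‖x₀‖ + φ.rOut + 1 → ‖y‖ ≤ ‖x₀‖ + φ.rOut + 1 → |f x - f y| ≤ K * ‖x - y‖)
    (hd : ∀ᵐ y, DifferentiableAt ℝ f y) :
    Integrable (fun t => φ.normed volume t • fderiv ℝ f (x₀ - t)) ∧
    HasFDerivAt (mol φ f) (∫ t, φ.normed volume t • fderiv ℝ f (x₀ - t)) x₀ := by
  have hmp : MeasurePreserving (fun t : E m => x₀ - t) volume volume :=
    volume.measurePreserving_sub_left x₀
  have hd' : ∀ᵐ t : E m, DifferentiableAt ℝ f (x₀ - t) :=
    hmp.quasiMeasurePreserving.ae hd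
  have hφi : Integrable (fun t => φ.normed volume t * K) :=
    (φ.continuous_normed.integrable_of_hasCompactSupport φ.hasCompactSupport_normed).mul_const K
  have hcont : ∀ x : E m, Continuous fun t => φ.normed volume t * f (x - t) := fun x =>
    φ.continuous_normed.mul (hf.comp (continuous_const.sub continuous_id))
  have key := hasFDerivAt_integral_of_dominated_loc_of_lip (𝕜 := ℝ) (μ := (volume : Measure (E m)))
    (F := fun (x : E m) (t : E m) => φ.normed volume t * f (x - t))
    (F' := fun t => φ.normed volume t • fderiv ℝ f (x₀ - t)) (x₀ := x₀)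
    (bound := fun t => φ.normed volume t * K) (s := Metric.ball x₀ 1)
    (Metric.ball_mem_nhds x₀ one_pos)
    (Eventually.of_forall fun x => (hcont x).aestronglyMeasurable)
    ((hcont x₀).integrable_of_hasCompactSupport φ.hasCompactSupport_normed.mul_right)
    ?_ ?_ hφi ?_
  · exact key
  · refine (φ.continuous_normed.aestronglyMeasurable).smul ?_
    exact ((measurable_fderiv ℝ f).comp
      (measurable_const.sub measurable_id)).aestronglyMeasurable
  · refine Eventually.of_forall fun t => ?_
    refine LipschitzOnWith.of_dist_le_mul fun x hx y hy => ?_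
    rw [Real.coe_nnabs, abs_of_nonneg (mul_nonneg (φ.nonneg_normed t) hK), dist_eq_norm,
      dist_eq_norm, ← mul_sub, norm_mul, Real.norm_eq_abs, abs_of_nonneg (φ.nonneg_normed t),
      mul_assoc]
    by_cases ht : ‖t‖ ≤ φ.rOut
    · refine mul_le_mul_of_nonneg_left ?_ (φ.nonneg_normed t)
      have hb : ∀ z ∈ Metric.ball x₀ 1, ‖z - t‖ ≤ ‖x₀‖ + φ.rOut + 1 := by
        intro z hz
        have h1 : ‖z - x₀‖ < 1 := by rwa [Metric.mem_ball, dist_eq_norm] at hz
        calc ‖z - t‖ = ‖(z - x₀) + x₀ - t‖ := by congr 1; abel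
          _ ≤ ‖(z - x₀) + x₀‖ + ‖t‖ := norm_sub_le _ _
          _ ≤ ‖z - x₀‖ + ‖x₀‖ + ‖t‖ := by gcongr; exact norm_add_le _ _
          _ ≤ ‖x₀‖ + φ.rOut + 1 := by linarith
      have h2 := hl (x - t) (y - t) (hb x hx) (hb y hy)
      rw [Real.norm_eq_abs]
      rwa [sub_sub_sub_cancel_right] at h2
    · rw [Pool.Agent.helper90.SN.mol_zero_of φ ht, zero_mul, zero_mul]
  · filter_upwards [hd'] with t ht
    have h1 : HasFDerivAt (fun x : E m => f (x - t)) (fderiv ℝ f (x₀ - t)) x₀ := by
      have h2 : HasFDerivAt (fun x : E m => f (x - t))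
          ((fderiv ℝ f (x₀ - t)).comp (ContinuousLinearMap.id ℝ (E m))) x₀ :=
        ht.hasFDerivAt.comp x₀ ((hasFDerivAt_id x₀).sub_const t)
      rwa [ContinuousLinearMap.comp_id] at h2
    exact h1.const_mul (φ.normed volume t)

/-- The same for partial derivatives. -/
theorem RAD_pd {m : ℕ} (φ : ContDiffBump (0 : E m)) (f : E m → ℝ) (K : ℝ) (x₀ : E m)
    (hK : 0 ≤ K) (hf : Continuous f)
    (hl : ∀ x y, ‖x‖ ≤ ‖x₀‖ + φ.rOut + 1 → ‖y‖ ≤ ‖x₀‖ + φ.rOut + 1 → |f x - f y| ≤ K * ‖x - y‖)
    (hd : ∀ᵐ y, DifferentiableAt ℝ f y) (i : Fin m) :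
    pd i (mol φ f) x₀ = ∫ t, φ.normed volume t * pd i f (x₀ - t) := by
  have h1 := RAD_fderiv φ f K x₀ hK hf hl hd
  show fderiv ℝ (mol φ f) x₀ (e i) = _
  rw [h1.2.fderiv, ContinuousLinearMap.integral_apply h1.1]
  rfl

/-- The components of the gradient. -/
noncomputable def RAD_g {m : ℕ} (G : E m → E m) (b : Fin m) (y : E m) : ℝ := inner ℝ (G y) (e b)

theorem RAD_norm_e {m : ℕ} (b : Fin m) : ‖(e b : E m)‖ = 1 := by
  simp [e]

theorem RAD_g_lip {m : ℕ} {G : E m → E m} {L : ℝ} (hL : ∀ x y, ‖G x - G y‖ ≤ L * ‖x - y‖)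
    (b : Fin m) (x y : E m) : |RAD_g G b x - RAD_g G b y| ≤ L * ‖x - y‖ := by
  have h1 : RAD_g G b x - RAD_g G b y = inner ℝ (G x - G y) (e b) := by
    simp [RAD_g, inner_sub_left]
  rw [h1]
  refine (abs_real_inner_le_norm _ _).trans ?_
  rw [RAD_norm_e, mul_one]
  exact hL x y

theorem RAD_lw {m : ℕ} {F : Type*} [NormedAddCommGroup F] {f : E m → F} {L : ℝ} (h0 : 0 ≤ L)
    (hL : ∀ x y, ‖f x - f y‖ ≤ L * ‖x - y‖) : LipschitzWith L.toNNReal f := by
  refine LipschitzWith.of_dist_le_mul fun x y => ?_
  rw [Real.coe_toNNReal L h0, dist_eq_norm, dist_eq_norm]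
  exact hL x y

theorem mRAD : mRAD_stmt := by
  intro m k G L h0 hc hg hL φ hφ hφ2
  have hGl : LipschitzWith L.toNNReal G := RAD_lw h0 hL
  have hGc : Continuous G := hGl.continuous
  have hGd : ∀ᵐ x, DifferentiableAt ℝ G x := hGl.ae_differentiableAt
  have hkf : ∀ x, HasFDerivAt k (InnerProductSpace.toDual ℝ (E m) (G x)) x := fun x =>
    (hg x).hasFDerivAt
  have hkd : ∀ x, DifferentiableAt ℝ k x := fun x => (hkf x).differentiableAt
  have hkc : Continuous k := continuous_iff_continuousAt.2 fun x => (hkd x).continuousAt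
  have hkpd : ∀ b, pd b k = RAD_g G b := by
    intro b
    funext y
    show fderiv ℝ k y (e b) = _
    rw [(hkf y).fderiv]
    rfl
  have hgl : ∀ b x y, |RAD_g G b x - RAD_g G b y| ≤ L * ‖x - y‖ := fun b => RAD_g_lip hL b
  have hgw : ∀ b, LipschitzWith L.toNNReal (RAD_g G b) := fun b =>
    RAD_lw h0 (fun x y => by rw [Real.norm_eq_abs]; exact hgl b x y)
  have hgc : ∀ b, Continuous (RAD_g G b) := fun b => (hgw b).continuous
  have hgd : ∀ b, ∀ᵐ x, DifferentiableAt ℝ (RAD_g G b) x := fun b => (hgw b).ae_differentiableAt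
  -- first derivative of the mollification
  have hG0 : ∀ y, ‖G y‖ ≤ ‖G 0‖ + L * ‖y‖ := by
    intro y
    have h1 := hL y 0
    rw [sub_zero] at h1
    have h2 : ‖G y‖ ≤ ‖G y - G 0‖ + ‖G 0‖ := by
      have := norm_add_le (G y - G 0) (G 0)
      rwa [sub_add_cancel] at this
    linarith
  have hklip : ∀ R : ℝ, ∀ x y, ‖x‖ ≤ R → ‖y‖ ≤ R → |k x - k y| ≤ (‖G 0‖ + L * |R|) * ‖x - y‖ := by
    intro R x y hx hy
    have hcv : Convex ℝ (Metric.closedBall (0 : E m) R) := convex_closedBall _ _
    have h1 := hcv.norm_image_sub_le_of_norm_hasFDerivWithin_le (𝕜 := ℝ) (f := k)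
      (f' := fun x => (InnerProductSpace.toDual ℝ (E m) (G x) : E m →L[ℝ] ℝ))
      (C := ‖G 0‖ + L * |R|) (x := y) (y := x)
      (fun z _ => (hkf z).hasFDerivWithinAt) ?_ (mem_closedBall_zero_iff.2 hy)
      (mem_closedBall_zero_iff.2 hx)
    · rwa [Real.norm_eq_abs] at h1
    · intro z hz
      rw [LinearIsometryEquiv.norm_map]
      refine (hG0 z).trans ?_
      have h2 : ‖z‖ ≤ |R| := (mem_closedBall_zero_iff.1 hz).trans (le_abs_self R)
      have := mul_le_mul_of_nonneg_left h2 h0
      linarith
  have hpd1 : ∀ j b, pd b (mol (φ j) k) = mol (φ j) (RAD_g G b) := by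
    intro j b
    funext x
    rw [RAD_pd (φ j) k (‖G 0‖ + L * |‖x‖ + (φ j).rOut + 1|) x (by positivity) hkc
      (hklip _) (Eventually.of_forall hkd) b, hkpd b]
    rfl
  have hess1 : ∀ j x a b, hess (mol (φ j) k) x a b
      = ∫ t, (φ j).normed volume t * pd a (RAD_g G b) (x - t) := by
    intro j x a b
    show pd a (pd b (mol (φ j) k)) x = _
    rw [hpd1 j b]
    exact RAD_pd (φ j) (RAD_g G b) L x h0 (hgc b) (fun x y _ _ => hgl b x y) (hgd b) a
  -- bound of the second derivatives
  have hpb : ∀ a b y, |pd a (RAD_g G b) y| ≤ L := by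
    intro a b y
    show |fderiv ℝ (RAD_g G b) y (e a)| ≤ L
    rw [← Real.norm_eq_abs]
    refine (ContinuousLinearMap.le_opNorm _ _).trans ?_
    rw [RAD_norm_e, mul_one]
    have := norm_fderiv_le_of_lipschitz ℝ (x₀ := y) (hgw b)
    rwa [Real.coe_toNNReal L h0] at this
  have hpm : ∀ a b, Measurable (pd a (RAD_g G b)) := fun a b =>
    measurable_fderiv_apply_const ℝ (RAD_g G b) (e a)
  refine ⟨fun x => Matrix.of fun a b => pd a (RAD_g G b) x, ?_, L, ?_⟩
  · -- almost everywhere
    have hloc : ∀ a b, LocallyIntegrable (pd a (RAD_g G b)) volume := by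
      intro a b
      refine (locallyIntegrable_const L).mono (hpm a b).aestronglyMeasurable ?_
      refine Eventually.of_forall fun y => ?_
      rw [Real.norm_eq_abs, Real.norm_eq_abs, abs_of_nonneg h0]
      exact hpb a b y
    have hconv : ∀ᵐ x, ∀ a b, Tendsto (fun j => hess (mol (φ j) k) x a b) atTop
        (𝓝 (pd a (RAD_g G b) x)) := by
      rw [ae_all_iff]
      intro a
      rw [ae_all_iff]
      intro b
      have h1 := ContDiffBump.ae_convolution_tendsto_right_of_locallyIntegrable
        (μ := (volume : Measure (E m))) (φ := φ) (l := atTop) (K := 2) hφ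
        (Eventually.of_forall fun j => (hφ2 j).le) (hloc a b)
      filter_upwards [h1] with x hx
      refine hx.congr fun j => ?_
      rw [hess1 j x a b, convolution_def]
      rfl
    filter_upwards [hconv, hGd] with x hx hGx
    have ht : Tendsto (fun j => hess (mol (φ j) k) x) atTop
        (𝓝 (Matrix.of fun a b => pd a (RAD_g G b) x)) :=
      tendsto_pi_nhds.mpr fun a => tendsto_pi_nhds.mpr fun b => hx a b
    have hMOA := fun j => Pool.Agent.helper90.SN.mMOA (φ j) k hkc
    have hpsd : ∀ j, (hess (mol (φ j) k) x).PosSemidef := fun j =>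
      hess_psd_of (hMOA j).1 ((hMOA j).2.1 hc) x
    refine ⟨?_, ht, ?_⟩
    · -- positive semidefinite
      refine Matrix.PosSemidef.of_dotProduct_mulVec_nonneg ?_ ?_
      · ext a b
        have h1 : ∀ j, hess (mol (φ j) k) x b a = hess (mol (φ j) k) x a b := by
          intro j
          have := (hpsd j).isHermitian.apply a b
          simpa using this
        have h2 : Tendsto (fun j => hess (mol (φ j) k) x a b) atTop
            (𝓝 (pd b (RAD_g G a) x)) := by
          simpa [h1] using hx b a
        have h3 := tendsto_nhds_unique h2 (hx a b)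
        simpa [Matrix.conjTranspose_apply] using h3
      · intro v
        have h1 : ∀ j, 0 ≤ star v ⬝ᵥ (hess (mol (φ j) k) x).mulVec v := fun j =>
          (hpsd j).dotProduct_mulVec_nonneg v
        have h2 : Tendsto (fun j => star v ⬝ᵥ (hess (mol (φ j) k) x).mulVec v) atTop
            (𝓝 (star v ⬝ᵥ (Matrix.of fun a b => pd a (RAD_g G b) x).mulVec v)) := by
          have h3 : Continuous fun M : Mat m => star v ⬝ᵥ M.mulVec v := by
            fun_prop
          exact (h3.tendsto _).comp ht
        exact ge_of_tendsto' h2 h1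
    · -- expansion
      intro ε hε
      have hG' := hGx.hasFDerivAt
      rw [hasFDerivAt_iff_isLittleO_nhds_zero] at hG'
      have h1 := hG'.def hε
      rw [Metric.eventually_nhds_iff] at h1
      obtain ⟨r, hr, h2⟩ := h1
      refine ⟨r / 2, by positivity, fun h hh => ?_⟩
      have hqf : qf (Matrix.of fun a b => pd a (RAD_g G b) x) h = inner ℝ (fderiv ℝ G x h) h := by
        have h3 : ∀ a b, pd a (RAD_g G b) x = inner ℝ (fderiv ℝ G x (e a)) (e b) := by
          intro a b
          have h4 : HasFDerivAt (RAD_g G b)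
              ((InnerProductSpace.toDual ℝ (E m) (e b) : E m →L[ℝ] ℝ).comp (fderiv ℝ G x)) x := by
            have h5 := ((InnerProductSpace.toDual ℝ (E m) (e b) : E m →L[ℝ] ℝ).hasFDerivAt
              (x := G x)).comp x hGx.hasFDerivAt
            refine h5.congr_of_eventuallyEq (Eventually.of_forall fun y => ?_)
            simp [RAD_g, real_inner_comm]
          show fderiv ℝ (RAD_g G b) x (e a) = _
          rw [h4.fderiv]
          simp [real_inner_comm]
        have h6 : h = ∑ i, h i • (e i : E m) := (HS1_sum h).symm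
        have h7 : inner ℝ (fderiv ℝ G x h) h
            = ∑ a, ∑ b, h a * (h b * inner ℝ (fderiv ℝ G x (e a)) (e b)) := by
          conv_lhs => rw [h6]
          rw [map_sum, sum_inner]
          refine Finset.sum_congr rfl fun a _ => ?_
          rw [inner_sum]
          refine Finset.sum_congr rfl fun b _ => ?_
          rw [map_smul, real_inner_smul_left, real_inner_smul_right]
        rw [h7]
        unfold qf
        refine Finset.sum_congr rfl fun a _ => Finset.sum_congr rfl fun b _ => ?_
        rw [Matrix.of_apply, h3]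
        ring
      rw [hqf]
      set A := fderiv ℝ G x with hA
      have hder : ∀ t : ℝ, HasDerivAt
          (fun t : ℝ => k (x + t • h) - (k x + t * inner ℝ (G x) h + 1 / 2 * t ^ 2 * inner ℝ (A h) h))
          (inner ℝ (G (x + t • h) - G x - A (t • h)) h) t := by
        intro t
        have e1 : HasDerivAt (fun t : ℝ => x + t • h) h t := by
          simpa using ((hasDerivAt_id t).smul_const h).const_add x
        have e2 : HasDerivAt (fun t : ℝ => k (x + t • h)) (inner ℝ (G (x + t • h)) h) t := by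
          exact (hkf (x + t • h)).comp_hasDerivAt t e1
        have e3 : HasDerivAt (fun t : ℝ => k x + t * inner ℝ (G x) h
            + 1 / 2 * t ^ 2 * inner ℝ (A h) h) (inner ℝ (G x) h + t * inner ℝ (A h) h) t := by
          have e4 : HasDerivAt (fun t : ℝ => t * inner ℝ (G x) h) (inner ℝ (G x) h) t := by
            simpa using (hasDerivAt_id t).mul_const (inner ℝ (G x) h)
          have e5 : HasDerivAt (fun t : ℝ => 1 / 2 * t ^ 2 * inner ℝ (A h) h)
              (t * inner ℝ (A h) h) t := by
            have := (((hasDerivAt_pow 2 t).const_mul (1 / 2 : ℝ)).mul_const (inner ℝ (A h) h))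
            refine this.congr_deriv ?_
            simp
          exact (e4.const_add (k x)).add e5
        refine (e2.sub e3).congr_deriv ?_
        rw [inner_sub_left, inner_sub_left, map_smul, real_inner_smul_left]
        ring
      have hbd : ∀ t ∈ Ico (0 : ℝ) 1,
          ‖inner ℝ (G (x + t • h) - G x - A (t • h)) h‖ ≤ ε * ‖h‖ ^ 2 := by
        intro t ht'
        have e6 : ‖t • h‖ ≤ ‖h‖ := by
          rw [norm_smul, Real.norm_eq_abs, abs_of_nonneg ht'.1]
          exact mul_le_of_le_one_left (norm_nonneg _) ht'.2.le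
        have e7 := h2 (y := t • h) (by rw [dist_zero_right]; linarith)
        have e8 : ‖G (x + t • h) - G x - A (t • h)‖ ≤ ε * ‖h‖ :=
          e7.trans (mul_le_mul_of_nonneg_left e6 hε.le)
        calc ‖inner ℝ (G (x + t • h) - G x - A (t • h)) h‖
            ≤ ‖G (x + t • h) - G x - A (t • h)‖ * ‖h‖ := norm_inner_le_norm _ _
          _ ≤ ε * ‖h‖ * ‖h‖ := mul_le_mul_of_nonneg_right e8 (norm_nonneg _)
          _ = ε * ‖h‖ ^ 2 := by ring
      have hfin := norm_image_sub_le_of_norm_deriv_le_segment_01'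
        (fun t _ => (hder t).hasDerivWithinAt) hbd
      simp only [one_smul, zero_smul, add_zero, Real.norm_eq_abs] at hfin
      refine le_trans (le_of_eq ?_) hfin
      congr 1
      ring
  · intro j x a b
    rw [hess1 j x a b]
    have h1 : ‖∫ t, (φ j).normed volume t * pd a (RAD_g G b) (x - t)‖
        ≤ ∫ t, (φ j).normed volume t * L := by
      refine norm_integral_le_of_norm_le ?_ (Eventually.of_forall fun t => ?_)
      · exact Pool.Agent.helper90.SN.mol_integrable (φ j) continuous_const
      · rw [norm_mul, Real.norm_eq_abs, Real.norm_eq_abs, abs_of_nonneg ((φ j).nonneg_normed t)]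
        exact mul_le_mul_of_nonneg_left (hpb a b _) ((φ j).nonneg_normed t)
    rwa [integral_mul_const, ContDiffBump.integral_normed, one_mul, Real.norm_eq_abs] at h1

end Pool.Agent.helper69.SN
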